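import Pool.Agent.TH163.AC3.Sw

/-!
# Circuits of constant depth under random restrictions
-/

set_option autoImplicit false

namespace Pool.Agent.TH163.AC3

open Finset DomAC0 H568R2

variable {I : Type} [Fintype I] [DecidableEq I]

/-- all gates of depth at most `j` have shallow decision trees under `ρ` -/
def Shallow (C : Circuit I) (s j : ℕ) (ρ : Restr I) : Prop :=
  ∀ g : Fin C.size, C.gateDepth g ≤ j → HasDT s (rs (fun x => C.gateVal x g) ρ)

lemma node_dt (C : Circuit I) {s j : ℕ} (hs : 1 ≤ s) {ρ : Restr I} (hG : Shallow C s j ρ)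
    (v : I ⊕ Fin C.size) (hv : C.nodeDepth v ≤ j) : HasDT s (rs (fun x => C.nodeVal x v) ρ) := by
  cases v with
  | inl i =>
    cases hρ : ρ i with
    | none =>
      refine ⟨Tree.node i (Tree.leaf false) (Tree.leaf true), ?_, ?_⟩
      · unfold Tree.depth
        simp only [Tree.depth]
        omega
      · intro x
        have h1 : rs (fun x => C.nodeVal x (Sum.inl i)) ρ x = x i := by
          show ov ρ x i = x i
          unfold ov
          rw [hρ]
          rfl
        rw [h1]
        unfold Tree.eval
        rcases hx : x i with _ | _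
        · simp [Tree.eval]
        · simp [Tree.eval]
    | some b =>
      apply hasDT_const b
      intro x
      show ov ρ x i = b
      unfold ov
      rw [hρ]
      rfl
  | inr g => exact hG g hv

lemma gate_cert' (C : Circuit I) {K : ℕ} {ρ : Restr I} (g : Fin C.size)
    (Q : List (I ⊕ Fin C.size))
    (hQ : ∀ v ∈ Q, HasDT K (rs (fun x => C.nodeVal x v) ρ)) :
    ∃ b, Cert K b (rs (fun x => gfun C g x Q) ρ) := by
  cases hg : C.kind g with
  | and =>
    refine ⟨false, ?_⟩
    intro x hx
    simp only [rs, gfun, hg, decide_eq_false_iff_not, not_forall] at hx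
    obtain ⟨v, hvQ, hv⟩ := hx
    have hv' : rs (fun x => C.nodeVal x v) ρ x = false := by
      show C.nodeVal (ov ρ x) v = false
      simpa using hv
    obtain ⟨A, hA, hy⟩ := (hQ v hvQ).cert false x hv'
    refine ⟨A, hA, fun y hxy => ?_⟩
    simp only [rs, gfun, hg, decide_eq_false_iff_not, not_forall]
    exact ⟨v, hvQ, by have := hy y hxy; simpa [rs] using this⟩
  | or =>
    refine ⟨true, ?_⟩
    intro x hx
    simp only [rs, gfun, hg, decide_eq_true_eq] at hx
    obtain ⟨v, hvQ, hv⟩ := hx
    obtain ⟨A, hA, hy⟩ := (hQ v hvQ).cert true x hv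
    refine ⟨A, hA, fun y hxy => ?_⟩
    simp only [rs, gfun, hg, decide_eq_true_eq]
    exact ⟨v, hvQ, hy y hxy⟩
  | not =>
    refine ⟨false, ?_⟩
    intro x hx
    simp only [rs, gfun, hg, decide_eq_false_iff_not, not_forall] at hx
    obtain ⟨v, hvQ, hv⟩ := hx
    have hv' : rs (fun x => C.nodeVal x v) ρ x = true := by
      show C.nodeVal (ov ρ x) v = true
      simpa using hv
    obtain ⟨A, hA, hy⟩ := (hQ v hvQ).cert true x hv'
    refine ⟨A, hA, fun y hxy => ?_⟩
    simp only [rs, gfun, hg, decide_eq_false_iff_not, not_forall]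
    exact ⟨v, hvQ, by have := hy y hxy; simpa [rs] using this⟩

open Classical in
theorem collapse' (C : Circuit I) {q : ℝ} (h0 : 0 ≤ q) (h1 : q ≤ 1 / 3) {s : ℕ} (hs : 1 ≤ s) :
    ∀ j : ℕ, Ex (wq (q ^ j)) (fun ρ : Restr I => if ¬ Shallow C s j ρ then (1 : ℝ) else 0) ≤
      j * C.size * (12 * s * q) ^ (s + 1) := by
  intro j
  induction j with
  | zero =>
    have hgood : ∀ ρ : Restr I, Shallow C s 0 ρ := by
      intro ρ g hg
      have : 0 < C.gateDepth g := by rw [Circuit.gateDepth]; omega
      omega
    simp only [hgood, not_true, if_false]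
    unfold Ex
    simp
  | succ j ih =>
    rw [pow_succ, wq_cmp]
    set ε : ℝ := (12 * s * q) ^ (s + 1) with hε
    have hε0 : 0 ≤ ε := by positivity
    have hwj : ∀ a, 0 ≤ wq (q ^ j) a :=
      wq_nonneg (pow_nonneg h0 j) (pow_le_one₀ h0 (by linarith))
    have hw1 : ∀ a, 0 ≤ wq q a := wq_nonneg h0 (by linarith)
    have hin : ∀ ρ : Restr I, Ex (wq q) (fun τ : Restr I =>
        if ¬ Shallow C s (j + 1) (cmp ρ τ) then (1 : ℝ) else 0) ≤
        (if ¬ Shallow C s j ρ then (1 : ℝ) else 0) + C.size * ε := by
      intro ρ
      by_cases hG : Shallow C s j ρ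
      · simp only [hG, not_true, if_false, zero_add]
        have hpt : ∀ τ : Restr I, (if ¬ Shallow C s (j + 1) (cmp ρ τ) then (1 : ℝ) else 0) ≤
            ∑ g ∈ univ.filter (fun g : Fin C.size => C.gateDepth g ≤ j + 1),
              (if ¬ HasDT s (rs (rs (fun x => C.gateVal x g) ρ) τ) then (1 : ℝ) else 0) := by
          intro τ
          have hnn : ∀ g ∈ univ.filter (fun g : Fin C.size => C.gateDepth g ≤ j + 1),
              (0 : ℝ) ≤ (if ¬ HasDT s (rs (rs (fun x => C.gateVal x g) ρ) τ)
                then (1 : ℝ) else 0) := by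
            intro g _
            split_ifs <;> norm_num
          by_cases hGG : Shallow C s (j + 1) (cmp ρ τ)
          · simp only [hGG, not_true, if_false]
            exact Finset.sum_nonneg hnn
          · simp only [hGG, not_false_iff, if_true]
            have hex : ∃ g : Fin C.size, C.gateDepth g ≤ j + 1 ∧
                ¬ HasDT s (rs (fun x => C.gateVal x g) (cmp ρ τ)) := by
              by_contra hcon
              apply hGG
              intro g hg
              by_contra hJ
              exact hcon ⟨g, hg, hJ⟩
            obtain ⟨g, hg, hJ⟩ := hex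
            rw [rs_cmp] at hJ
            refine le_trans ?_ (Finset.single_le_sum hnn
              (Finset.mem_filter.2 ⟨Finset.mem_univ g, hg⟩))
            rw [if_pos hJ]
        refine (Ex_mono hw1 hpt).trans ?_
        rw [Ex_sum]
        have hterm : ∀ g ∈ univ.filter (fun g : Fin C.size => C.gateDepth g ≤ j + 1),
            Ex (wq q) (fun τ : Restr I => (if ¬ HasDT s
                (rs (rs (fun x => C.gateVal x g) ρ) τ) then (1 : ℝ) else 0)) ≤ ε := by
          intro g hgi
          have hgd : C.gateDepth g ≤ j + 1 := (Finset.mem_filter.1 hgi).2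
          obtain ⟨b, hb⟩ := gate_cert' C (K := s) (ρ := ρ) g (C.preds g).toList (by
            intro v hv
            apply node_dt C hs hG
            have hvp : v ∈ C.preds g := by
              rwa [Finset.mem_toList] at hv
            have := depth_lt C g v hvp
            omega)
          have h2 : (fun x => C.gateVal x g) = fun x => gfun C g x (C.preds g).toList := by
            funext x
            exact gateVal_eq C x g
          rw [← h2] at hb
          exact switching' h0 h1 hb
        refine (Finset.sum_le_card_nsmul _ _ _ hterm).trans ?_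
        rw [nsmul_eq_mul]
        apply mul_le_mul_of_nonneg_right _ hε0
        have : (univ.filter (fun g : Fin C.size => C.gateDepth g ≤ j + 1)).card ≤ C.size := by
          refine (Finset.card_le_univ _).trans ?_
          simp
        exact_mod_cast this
      · simp only [hG, not_false_iff, if_true]
        have h2 : Ex (wq q) (fun τ : Restr I =>
            if ¬ Shallow C s (j + 1) (cmp ρ τ) then (1 : ℝ) else 0) ≤
            Ex (wq q) (fun _ : Restr I => (1 : ℝ)) := by
          apply Ex_mono hw1
          intro τ
          split_ifs <;> norm_num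
        rw [Ex_const (wq_sum q)] at h2
        have : 0 ≤ C.size * ε := by positivity
        linarith
    refine (Ex_mono hwj hin).trans ?_
    rw [Ex_add, Ex_const (wq_sum (q ^ j))]
    push_cast at ih ⊢
    linarith

end Pool.Agent.TH163.AC3
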