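import Pool.Agent.TH163.AC2.Stars
import Pool.Agent.TH163.AC3.Col

/-!
# Runs of an algorithm whose memory bits have shallow decision trees
-/

set_option autoImplicit false

namespace Pool.Agent.TH163.AC3

open Finset H568R2 Pool.Agent.TH163.AC2
open Pool.Agent.H699R2.OMV (Prog Vec Mat IsProb before avg)

variable {n : ℕ} {Ω A : Type} {w : ℕ}

/-- the columns of row `r` read by the trees of the probed cells -/
noncomputable def rd (alg : Alg n Ω A w) (ω : Ω) (h : List (Vec n)) (G : (Mat n)ˣ)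
    (B : Fin n → (Mat n)ˣ) (ρ : Restr (Fin n × Fin n))
    (J : A → Fin w → Tree (Fin n × Fin n)) (v : Vec n) (x : Fin n × Fin n → Bool)
    (r : Fin n) : Finset (Fin n) :=
  open Classical in
  univ.filter (fun c => ∃ a ∈ alg.adr ω h (toM G B (ov ρ x)) v, ∃ i, (r, c) ∈ (J a i).reads x)

variable (alg : Alg n Ω A w) (ω : Ω) (h : List (Vec n)) (G : (Mat n)ˣ)
    (B : Fin n → (Mat n)ˣ) (ρ : Restr (Fin n × Fin n))
    (J : A → Fin w → Tree (Fin n × Fin n)) (v : Vec n)

lemma flp_reads (u : Fin n → Fin n → Bool) (x : Fin n × Fin n → Bool)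
    (hu2 : ∀ r c, u r c = true → c ∉ rd alg ω h G B ρ J v x r) (a : A)
    (ha : a ∈ alg.adr ω h (toM G B (ov ρ x)) v) (i : Fin w) :
    (J a i).eval (flp u x) = (J a i).eval x ∧ (J a i).reads (flp u x) = (J a i).reads x := by
  apply Tree.congr
  intro e he
  unfold flp
  rw [if_neg]
  intro h3
  apply hu2 e.1 e.2 h3
  unfold rd
  rw [Finset.mem_filter]
  exact ⟨Finset.mem_univ _, a, ha, i, he⟩

lemma flp_run (hJ : ∀ a i x, (J a i).eval x = rs (fun X => alg.mem ω h (toM G B X) a i) ρ x)
    (u : Fin n → Fin n → Bool) (x : Fin n × Fin n → Bool)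
    (hu1 : ∀ r c, u r c = true → ρ (r, c) = none)
    (hu2 : ∀ r c, u r c = true → c ∉ rd alg ω h G B ρ J v x r)
    (hu3 : ∀ r, ∀ z ∈ h, dz (u r) ((↑(B r)⁻¹ : Mat n).mulVec z) = 0) :
    alg.ans ω h (toM G B (ov ρ (flp u x))) v = alg.ans ω h (toM G B (ov ρ x)) v ∧
      alg.adr ω h (toM G B (ov ρ (flp u x))) v = alg.adr ω h (toM G B (ov ρ x)) v := by
  have h1 : h.map (toM G B (ov ρ (flp u x))).mulVec = h.map (toM G B (ov ρ x)).mulVec := by
    apply List.map_congr_left
    intro z hz
    rw [toM_mulVec, toM_mulVec]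
    congr 1
    funext r
    rw [gm_flp B ρ u hu1, hu3 r z hz, add_zero]
  unfold Alg.ans Alg.adr
  rw [h1]
  apply run_congr
  intro a ha
  funext i
  have h2 := (flp_reads alg ω h G B ρ J v u x hu2 a ha i).1
  rw [hJ, hJ] at h2
  exact h2

/-- the rows of which few columns have been read -/
noncomputable def rw' (D0 : ℕ) (x : Fin n × Fin n → Bool) : Finset (Fin n) :=
  univ.filter (fun r => (rd alg ω h G B ρ J v x r).card < D0)

/-- **the main counting lemma**: if few columns of many rows have been read, the answer is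
hardly ever right -/
lemma card_right (hJ : ∀ a i x, (J a i).eval x = rs (fun X => alg.mem ω h (toM G B X) a i) ρ x)
    (D0 m : ℕ)
    (hP : ∀ (r : Fin n) (D : Finset (Fin n)), D.card < D0 → ∃ u : Fin n → Bool,
      (∀ c, u c = true → ρ (r, c) = none) ∧ (∀ c, u c = true → c ∉ D) ∧
      (∀ z ∈ h, dz u ((↑(B r)⁻¹ : Mat n).mulVec z) = 0) ∧
      dz u ((↑(B r)⁻¹ : Mat n).mulVec v) = 1) :
    2 ^ m * (univ.filter (fun x => alg.ans ω h (toM G B (ov ρ x)) v =
        (toM G B (ov ρ x)).mulVec v ∧ m ≤ (rw' alg ω h G B ρ J v D0 x).card)).card ≤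
      Fintype.card (Fin n × Fin n → Bool) := by
  classical
  choose! u hu1 hu2 hu3 hu4 using hP
  set Rw := rw' alg ω h G B ρ J v D0 with hRw
  let uu : (Fin n × Fin n → Bool) → Finset (Fin n) → Fin n → Fin n → Bool :=
    fun x T r c => decide (r ∈ T) && u r (rd alg ω h G B ρ J v x r) c
  have huu : ∀ x T r c, uu x T r c = true → r ∈ T ∧ u r (rd alg ω h G B ρ J v x r) c = true := by
    intro x T r c hx
    simpa [uu] using hx
  have hrow0 : ∀ x T r, r ∉ T → uu x T r = fun _ => false := by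
    intro x T r hr
    funext c
    simp [uu, hr]
  have hrow1 : ∀ x T r, r ∈ T → uu x T r = u r (rd alg ω h G B ρ J v x r) := by
    intro x T r hr
    funext c
    simp [uu, hr]
  have hlt : ∀ x T r, T ⊆ Rw x → r ∈ T → (rd alg ω h G B ρ J v x r).card < D0 := by
    intro x T r hT hr
    have := hT hr
    rw [hRw] at this
    unfold rw' at this
    exact (Finset.mem_filter.1 this).2
  have hz0 : ∀ z : Vec n, dz (fun _ => false) z = 0 := by
    intro z
    unfold dz
    simp
  let φ : (Fin n × Fin n → Bool) → Finset (Fin n) → (Fin n × Fin n → Bool) :=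
    fun x T => flp (uu x T) x
  have hu1' : ∀ x T, T ⊆ Rw x → ∀ r c, uu x T r c = true → ρ (r, c) = none := by
    intro x T hT r c hx
    obtain ⟨h1, h2⟩ := huu x T r c hx
    exact hu1 r _ (hlt x T r hT h1) c h2
  have hu2' : ∀ x T, T ⊆ Rw x → ∀ r c, uu x T r c = true →
      c ∉ rd alg ω h G B ρ J v x r := by
    intro x T hT r c hx
    obtain ⟨h1, h2⟩ := huu x T r c hx
    exact hu2 r _ (hlt x T r hT h1) c h2
  have key : ∀ x T, T ⊆ Rw x →
      alg.ans ω h (toM G B (ov ρ (φ x T))) v = alg.ans ω h (toM G B (ov ρ x)) v ∧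
      alg.adr ω h (toM G B (ov ρ (φ x T))) v = alg.adr ω h (toM G B (ov ρ x)) v := by
    intro x T hT
    apply flp_run alg ω h G B ρ J v hJ (uu x T) x (hu1' x T hT) (hu2' x T hT)
    intro r z hz
    by_cases hr : r ∈ T
    · rw [hrow1 x T r hr]
      exact hu3 r _ (hlt x T r hT hr) z hz
    · rw [hrow0 x T r hr, hz0]
  have hrd : ∀ x T, T ⊆ Rw x → rd alg ω h G B ρ J v (φ x T) = rd alg ω h G B ρ J v x := by
    intro x T hT
    funext r
    unfold rd
    rw [(key x T hT).2]
    apply Finset.filter_congr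
    intro c _
    constructor
    · rintro ⟨a, ha, i, hi⟩
      refine ⟨a, ha, i, ?_⟩
      rw [← (flp_reads alg ω h G B ρ J v (uu x T) x (hu2' x T hT) a ha i).2]
      exact hi
    · rintro ⟨a, ha, i, hi⟩
      refine ⟨a, ha, i, ?_⟩
      show (r, c) ∈ (J a i).reads (flp (uu x T) x)
      rw [(flp_reads alg ω h G B ρ J v (uu x T) x (hu2' x T hT) a ha i).2]
      exact hi
  have hgm : ∀ x T, T ⊆ Rw x → ∀ r, gm B (ov ρ (φ x T)) v r =
      gm B (ov ρ x) v r + if r ∈ T then 1 else 0 := by
    intro x T hT r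
    show gm B (ov ρ (flp (uu x T) x)) v r = _
    rw [gm_flp B ρ _ (hu1' x T hT)]
    congr 1
    by_cases hr : r ∈ T
    · rw [hrow1 x T r hr, if_pos hr]
      exact hu4 r _ (hlt x T r hT hr)
    · rw [hrow0 x T r hr, if_neg hr, hz0]
  set S := univ.filter (fun x => alg.ans ω h (toM G B (ov ρ x)) v =
        (toM G B (ov ρ x)).mulVec v ∧ m ≤ (Rw x).card) with hS
  have hcard : (S.sigma (fun x => (Rw x).powerset)).card ≤
      (univ : Finset (Fin n × Fin n → Bool)).card := by
    apply Finset.card_le_card_of_injOn (fun p => φ p.1 p.2)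
    · intro p _
      exact Finset.mem_coe.2 (Finset.mem_univ _)
    · rintro ⟨x, T⟩ hx ⟨x', T'⟩ hx' hxx
      have hx1 : ((⟨x, T⟩ : (_ : Fin n × Fin n → Bool) × Finset (Fin n))) ∈
        S.sigma (fun x => (Rw x).powerset) := hx
      have hx1' : ((⟨x', T'⟩ : (_ : Fin n × Fin n → Bool) × Finset (Fin n))) ∈
        S.sigma (fun x => (Rw x).powerset) := hx'
      rw [Finset.mem_sigma, Finset.mem_powerset, hS, Finset.mem_filter] at hx1 hx1'
      obtain ⟨⟨_, hr, _⟩, hT⟩ := hx1
      obtain ⟨⟨_, hr', _⟩, hT'⟩ := hx1'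
      simp only at hT hT' hr hr'
      have hxx' : φ x T = φ x' T' := hxx
      have e1 : rd alg ω h G B ρ J v x = rd alg ω h G B ρ J v x' := by
        rw [← hrd x T hT, ← hrd x' T' hT', hxx']
      have e2 : alg.ans ω h (toM G B (ov ρ x)) v = alg.ans ω h (toM G B (ov ρ x')) v := by
        rw [← (key x T hT).1, ← (key x' T' hT').1, hxx']
      have e3 : gm B (ov ρ x) v = gm B (ov ρ x') v := by
        rw [gm_eq G, gm_eq G, ← hr, ← hr', e2]
      have e4 : T = T' := by
        ext r
        have h1 := hgm x T hT r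
        have h2 := hgm x' T' hT' r
        rw [hxx', h2, e3] at h1
        have h3 := add_left_cancel h1
        by_cases ha : r ∈ T <;> by_cases hb : r ∈ T'
        · exact ⟨fun _ => hb, fun _ => ha⟩
        · rw [if_pos ha, if_neg hb] at h3
          exact absurd h3 (by decide)
        · rw [if_neg ha, if_pos hb] at h3
          exact absurd h3 (by decide)
        · exact ⟨fun h => absurd h ha, fun h => absurd h hb⟩
      have e5 : uu x T = uu x' T' := by
        funext r c
        show (decide (r ∈ T) && u r (rd alg ω h G B ρ J v x r) c) =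
          (decide (r ∈ T') && u r (rd alg ω h G B ρ J v x' r) c)
        rw [e1, e4]
      have e6 : x = x' := by
        have h1 : flp (uu x T) (φ x T) = x := flp_flp _ x
        have h2 : flp (uu x' T') (φ x' T') = x' := flp_flp _ x'
        rw [← h1, ← h2, e5, hxx']
      subst e6
      subst e4
      rfl
  rw [Finset.card_sigma, Finset.card_univ] at hcard
  refine le_trans ?_ hcard
  rw [mul_comm, ← smul_eq_mul, ← Finset.sum_const]
  apply Finset.sum_le_sum
  intro x hx
  rw [Finset.card_powerset]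
  apply Nat.pow_le_pow_right (by norm_num)
  rw [hS, Finset.mem_filter] at hx
  exact hx.2.2

end Pool.Agent.TH163.AC3
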