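import Pool.Agent.TH163.AC2.Core
import Pool.Agent.TH163.AC3.Main

/-!
# The lower bound with explicit parameters, averaged over the stream
-/

set_option autoImplicit false

namespace Pool.Agent.TH163.AC3

open Finset H568R2 DomAC0
open Pool.Agent.TH163.AC2 (Alg lenE rightE mavg avg_eq mavg_sum_mul sum_before)
open Pool.Agent.H699R2.OMV (Prog Vec Mat IsProb before avg)

variable {n : ℕ} {Ω A : Type} {w : ℕ}

open Classical in
theorem core [Fintype Ω] [Fintype A] (alg : Alg n Ω A w) (μ : Ω → ℝ) (hμ : IsProb μ) {γ : ℝ}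
    (hR : alg.Right μ γ) {d s : ℕ} (hDS : alg.DepthSize d s) {q0 : ℝ} (h0 : 0 ≤ q0)
    (h1 : q0 ≤ 1 / 3) {k : ℕ} (hk : 1 ≤ k) (Q D0 s0 m : ℕ) (hQ : Q ≤ n) {β : ℝ}
    (hβ : 1 / 2 ^ m + n * (2 ^ s0 * (1 - q0 ^ d / 2) ^ n +
        (n + 1) ^ D0 * 2 ^ (Q + D0) / 2 ^ s0) +
      (Fintype.card A * w : ℕ) * (d * s * (12 * k * q0) ^ (k + 1)) ≤ β) :
    Q * (((D0 * (n - m) : ℕ) : ℝ) * (γ - β)) ≤ k * w * avg (fun M vs =>
      ∑ ω, μ ω * ∑ q, ((alg.probes ω M vs q).length : ℝ)) := by
  set K := k with hK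
  set P : ℝ := ((D0 * (n - m) : ℕ) : ℝ) with hP
  have hP0 : 0 ≤ P := by positivity
  have hp0 : 0 ≤ q0 ^ d := pow_nonneg h0 d
  have hp1 : q0 ^ d ≤ 1 := pow_le_one₀ h0 (by linarith)
  have hcV : (0 : ℝ) < (Fintype.card (Fin n → Vec n) : ℝ) := by
    exact_mod_cast Fintype.card_pos
  -- the time of one vector
  let T : Fin n → ℝ := fun q => avg (fun M vs =>
      ∑ ω, μ ω * ((alg.probes ω M vs q).length : ℝ))
  have hT : ∀ q, T q = (∑ ω, μ ω * ∑ vs : Fin n → Vec n, lenE alg ω (before vs q) (vs q)) /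
      (Fintype.card (Fin n → Vec n) : ℝ) := by
    intro q
    show avg _ = _
    rw [avg_eq]
    congr 1
    simp only [mavg_sum_mul]
    rw [Finset.sum_comm]
    apply Finset.sum_congr rfl
    intro ω _
    rw [Finset.mul_sum]
    rfl
  have hE : ∀ q : Fin n, γ ≤ (∑ ω, μ ω * ∑ vs : Fin n → Vec n,
      rightE alg ω (before vs q) (vs q)) / (Fintype.card (Fin n → Vec n) : ℝ) := by
    intro q
    have := hR q
    rw [avg_eq] at this
    simp only [mavg_sum_mul] at this
    rw [Finset.sum_comm] at this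
    refine le_trans this (le_of_eq ?_)
    congr 1
    apply Finset.sum_congr rfl
    intro ω _
    rw [Finset.mul_sum]
    rfl
  have hTnn : ∀ q, 0 ≤ T q := by
    intro q
    rw [hT]
    apply div_nonneg _ hcV.le
    apply Finset.sum_nonneg
    intro ω _
    apply mul_nonneg (hμ.nonneg ω)
    apply Finset.sum_nonneg
    intro vs _
    unfold lenE mavg
    positivity
  have hone : ∀ q : Fin n, q.val < Q → P * (γ - β) ≤ K * w * T q := by
    intro q hq
    have hG : ∀ ω, (Fintype.card (Fin n → Vec n) : ℝ) * (-(P * β)) ≤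
        ∑ vs : Fin n → Vec n, (K * w * lenE alg ω (before vs q) (vs q) -
          P * rightE alg ω (before vs q) (vs q)) := by
      intro ω
      apply sum_before (fun h v => K * w * lenE alg ω h v - P * rightE alg ω h v)
      intro h hh
      obtain ⟨G, B, hGB⟩ := hDS ω h
      refine le_trans ?_ (avg_vec alg ω h G B K D0 s0 m hp0 hp1)
      apply mul_le_mul_of_nonneg_left _ (by positivity)
      rw [← hP]
      apply neg_le_neg
      apply mul_le_mul_of_nonneg_left _ hP0
      have h2 := bad_le alg ω h G B hGB h0 h1 hk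
      have h3 : ((n : ℝ) + 1) ^ D0 * 2 ^ (h.length + D0) / 2 ^ s0 ≤
          ((n : ℝ) + 1) ^ D0 * 2 ^ (Q + D0) / 2 ^ s0 := by
        apply div_le_div_of_nonneg_right _ (by positivity)
        apply mul_le_mul_of_nonneg_left _ (by positivity)
        exact pow_le_pow_right₀ (by norm_num) (by omega)
      have h4 : (n : ℝ) * (2 ^ s0 * (1 - q0 ^ d / 2) ^ n +
          ((n : ℝ) + 1) ^ D0 * 2 ^ (h.length + D0) / 2 ^ s0) ≤
          (n : ℝ) * (2 ^ s0 * (1 - q0 ^ d / 2) ^ n +
          ((n : ℝ) + 1) ^ D0 * 2 ^ (Q + D0) / 2 ^ s0) := by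
        apply mul_le_mul_of_nonneg_left _ (by positivity)
        linarith
      linarith
    have hsum : (Fintype.card (Fin n → Vec n) : ℝ) * (-(P * β)) ≤
        K * w * (∑ ω, μ ω * ∑ vs : Fin n → Vec n, lenE alg ω (before vs q) (vs q)) -
        P * ∑ ω, μ ω * ∑ vs : Fin n → Vec n, rightE alg ω (before vs q) (vs q) := by
      have h4 := Finset.sum_le_sum (fun ω (_ : ω ∈ (univ : Finset Ω)) =>
        mul_le_mul_of_nonneg_left (hG ω) (hμ.nonneg ω))
      rw [← Finset.sum_mul, hμ.sum_one, one_mul] at h4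
      refine h4.trans (le_of_eq ?_)
      rw [Finset.mul_sum, Finset.mul_sum, ← Finset.sum_sub_distrib]
      apply Finset.sum_congr rfl
      intro ω _
      rw [Finset.sum_sub_distrib, ← Finset.mul_sum, ← Finset.mul_sum]
      ring
    have h5 : -(P * β) ≤ K * w * T q - P * ((∑ ω, μ ω *
        ∑ vs : Fin n → Vec n, rightE alg ω (before vs q) (vs q)) /
          (Fintype.card (Fin n → Vec n) : ℝ)) := by
      rw [hT, ← mul_div_assoc, ← mul_div_assoc, ← sub_div, le_div_iff₀ hcV]
      linarith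
    have h7 := mul_le_mul_of_nonneg_left (hE q) hP0
    linarith
  have htot : avg (fun M vs => ∑ ω, μ ω * ∑ q, ((alg.probes ω M vs q).length : ℝ)) =
      ∑ q, T q := by
    show _ = ∑ q, avg _
    unfold avg
    rw [← Finset.sum_div]
    congr 1
    symm
    rw [Finset.sum_comm]
    apply Finset.sum_congr rfl
    intro M _
    rw [Finset.sum_comm]
    apply Finset.sum_congr rfl
    intro vs _
    rw [Finset.sum_comm]
    apply Finset.sum_congr rfl
    intro ω _
    rw [Finset.mul_sum]
  rw [htot]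
  have hsub : ∑ q ∈ univ.filter (fun q : Fin n => q.val < Q), (K * w * T q) ≤
      K * w * ∑ q, T q := by
    rw [Finset.mul_sum]
    apply Finset.sum_le_sum_of_subset_of_nonneg (Finset.filter_subset _ _)
    intro q _ _
    exact mul_nonneg (by positivity) (hTnn q)
  refine le_trans ?_ hsub
  have hcard : (univ.filter (fun q : Fin n => q.val < Q)).card = Q := by
    rw [Fin.card_filter_val_lt, min_eq_right hQ]
  have := Finset.card_nsmul_le_sum (univ.filter (fun q : Fin n => q.val < Q))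
    (fun q => K * w * T q) (P * (γ - β)) (by
      intro q hq
      exact hone q (Finset.mem_filter.1 hq).2)
  rw [hcard, nsmul_eq_mul] at this
  exact this

end Pool.Agent.TH163.AC3
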