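import Pool.Agent.TH163.AC3.Core

/-!
# The lower bound with explicit constants
-/

set_option autoImplicit false

namespace Pool.Agent.TH163.AC3

open Finset H568R2
open Pool.Agent.TH163.AC2 (Alg)
open Pool.Agent.H699R2.OMV (Prog Vec Mat IsProb before avg)

lemma few_term {n s0 : ℕ} {p : ℝ} (hp1 : p ≤ 1) (h : 4 * (s0 : ℝ) ≤ n * p) :
    (2 : ℝ) ^ s0 * (1 - p / 2) ^ n ≤ 1 / 2 ^ s0 := by
  have h9 : (1 - p / 2) ^ n ≤ Real.exp (-(2 * s0)) := by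
    have h10 : (1 - p / 2) ^ n ≤ (Real.exp (-(p / 2))) ^ n := by
      apply pow_le_pow_left₀ (by linarith)
      exact Real.one_sub_le_exp_neg _
    refine h10.trans ?_
    rw [← Real.exp_nat_mul]
    apply Real.exp_le_exp.2
    linarith
  have h11 : (2 : ℝ) ^ s0 * 2 ^ s0 ≤ Real.exp (2 * s0) := by
    have h12 : (2 : ℝ) ^ s0 ≤ Real.exp s0 := by
      have h13 : (2 : ℝ) ^ s0 ≤ (Real.exp 1) ^ s0 := by
        apply pow_le_pow_left₀ (by norm_num)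
        have := Real.add_one_le_exp (1 : ℝ)
        linarith
      rwa [← Real.exp_nat_mul, mul_one] at h13
    rw [two_mul, Real.exp_add]
    exact mul_le_mul h12 h12 (by positivity) (Real.exp_pos _).le
  rw [le_div_iff₀ (by positivity)]
  calc (2 : ℝ) ^ s0 * (1 - p / 2) ^ n * 2 ^ s0 = (2 ^ s0 * 2 ^ s0) * (1 - p / 2) ^ n := by ring
    _ ≤ Real.exp (2 * s0) * Real.exp (-(2 * s0)) := by
        apply mul_le_mul h11 h9 (pow_nonneg (by linarith) n) (Real.exp_pos _).le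
    _ = 1 := by rw [← Real.exp_add]; simp

lemma cnt_term {n k s0 : ℕ} (hn : n ≤ 2 ^ k) (hs0 : 8 * k + 16 ≤ s0) :
    ((n : ℝ) + 1) ^ (s0 / (4 * (k + 2))) * 2 ^ (s0 / 2 + s0 / (4 * (k + 2))) / 2 ^ s0 ≤
      1 / 2 ^ (2 * k + 4) := by
  set D0 := s0 / (4 * (k + 2)) with hD0
  have h1 : (k + 2) * D0 ≤ s0 / 4 := by
    have h2 : D0 = s0 / 4 / (k + 2) := by rw [hD0, Nat.div_div_eq_div_mul]
    rw [h2]
    exact Nat.mul_div_le _ _
  have h2 : n + 1 ≤ 2 ^ (k + 1) := by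
    have := Nat.one_le_two_pow (n := k)
    rw [pow_succ]
    omega
  have h3 : (n + 1) ^ D0 * 2 ^ (s0 / 2 + D0) * 2 ^ (2 * k + 4) ≤ 2 ^ s0 := by
    calc (n + 1) ^ D0 * 2 ^ (s0 / 2 + D0) * 2 ^ (2 * k + 4) ≤
          (2 ^ (k + 1)) ^ D0 * 2 ^ (s0 / 2 + D0) * 2 ^ (2 * k + 4) := by
          gcongr
      _ = 2 ^ ((k + 1) * D0 + (s0 / 2 + D0) + (2 * k + 4)) := by
          rw [← pow_mul, ← pow_add, ← pow_add]
      _ ≤ 2 ^ s0 := by
          apply Nat.pow_le_pow_right (by norm_num)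
          have h4 : (k + 1) * D0 + D0 = (k + 2) * D0 := by ring
          omega
  have h4 : ((n : ℝ) + 1) ^ D0 * 2 ^ (s0 / 2 + D0) * 2 ^ (2 * k + 4) ≤ 2 ^ s0 := by
    exact_mod_cast h3
  rw [div_le_div_iff₀ (by positivity) (by positivity), one_mul]
  exact h4

lemma circ_term {k d B : ℕ} (hB : B ≤ 2 ^ k) :
    (B : ℝ) * (d * ((2 ^ k : ℕ) : ℝ) *
      (12 * ((3 * k + d + 3 : ℕ) : ℝ) * (1 / ((72 * k + 24 * d + 72 : ℕ) : ℝ))) ^
        (3 * k + d + 3 + 1)) ≤ 1 / 2 ^ (k + 4) := by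
  have h1 : 12 * ((3 * k + d + 3 : ℕ) : ℝ) * (1 / ((72 * k + 24 * d + 72 : ℕ) : ℝ)) = 1 / 2 := by
    have h2 : ((72 * k + 24 * d + 72 : ℕ) : ℝ) = 24 * ((3 * k + d + 3 : ℕ) : ℝ) := by
      push_cast
      ring
    have h3 : (0 : ℝ) < ((3 * k + d + 3 : ℕ) : ℝ) := by
      have : 0 < 3 * k + d + 3 := by omega
      exact_mod_cast this
    rw [h2]
    field_simp
    norm_num
  rw [h1]
  have h4 : (B : ℝ) ≤ 2 ^ k := by exact_mod_cast hB
  have h5 : (d : ℝ) ≤ 2 ^ d := by exact_mod_cast Nat.lt_two_pow_self.le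
  have h6 : ((2 ^ k : ℕ) : ℝ) = 2 ^ k := by push_cast; rfl
  rw [h6]
  calc (B : ℝ) * (d * 2 ^ k * (1 / 2) ^ (3 * k + d + 3 + 1)) ≤
        2 ^ k * (2 ^ d * 2 ^ k * (1 / 2) ^ (3 * k + d + 3 + 1)) := by gcongr
    _ = 1 / 2 ^ (k + 4) := by
      rw [one_div, inv_pow, one_div]
      have h7 : (2 : ℝ) ^ (3 * k + d + 3 + 1) = 2 ^ k * (2 ^ d * 2 ^ k) * 2 ^ (k + 4) := by
        rw [← pow_add, ← pow_add, ← pow_add]
        congr 1
        ring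
      rw [h7]
      field_simp

theorem final {n : ℕ} {Ω A : Type} {w : ℕ} [Fintype Ω] [Fintype A] (d k : ℕ) (hn : n ≤ 2 ^ k)
    (hL : (72 * k + 24 * d + 72) ^ (d + 1) ≤ n) (alg : Alg n Ω A w) (μ : Ω → ℝ)
    (hμ : IsProb μ) {γ : ℝ} (hA : Fintype.card A * w ≤ 2 ^ k) (hDS : alg.DepthSize d (2 ^ k))
    (hγ : 1 / (2 : ℝ) ^ k ≤ γ) (hR : alg.Right μ γ) :
    γ * (n : ℝ) ^ 3 ≤ 10 * (72 * k + 24 * d + 72 : ℝ) ^ (2 * d + 2) * (w * avg (fun M vs =>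
      ∑ ω, μ ω * ∑ q, ((alg.probes ω M vs q).length : ℝ))) := by
  obtain ⟨L, hLd⟩ : ∃ L : ℕ, L = 72 * k + 24 * d + 72 := ⟨_, rfl⟩
  obtain ⟨s', hs'⟩ : ∃ s' : ℕ, s' = 3 * k + d + 3 := ⟨_, rfl⟩
  have hLs : L = 24 * s' := by omega
  have hLr : (72 * k + 24 * d + 72 : ℝ) = (L : ℝ) := by rw [hLd]; push_cast; ring
  have hL0 : 0 < L := by omega
  have hL0' : (0 : ℝ) < L := by exact_mod_cast hL0
  rw [← hLd] at hL
  rw [hLr]
  have hLd0 : 0 < L ^ d := Nat.pow_pos hL0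
  obtain ⟨s0, hs0⟩ : ∃ s0 : ℕ, s0 = n / (4 * L ^ d) := ⟨_, rfl⟩
  have hs0a : s0 * (4 * L ^ d) ≤ n := by rw [hs0]; exact Nat.div_mul_le_self _ _
  have hs0b : n < (s0 + 1) * (4 * L ^ d) := by
    rw [hs0]
    have := Nat.lt_div_mul_add (a := n) (b := 4 * L ^ d) (by positivity)
    linarith
  have hs0c : 18 * k + 18 ≤ s0 := by
    have h1 : L * L ^ d < 4 * (s0 + 1) * L ^ d := by
      calc L * L ^ d = L ^ (d + 1) := by ring
        _ ≤ n := hL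
        _ < (s0 + 1) * (4 * L ^ d) := hs0b
        _ = 4 * (s0 + 1) * L ^ d := by ring
    have h2 := lt_of_mul_lt_mul_right h1 (Nat.zero_le _)
    omega
  have hnL : L ≤ n := by
    refine le_trans ?_ hL
    rw [pow_succ]
    exact Nat.le_mul_of_pos_left _ hLd0
  obtain ⟨q, hq⟩ : ∃ q : ℝ, q = 1 / (L : ℝ) := ⟨_, rfl⟩
  have hq0 : 0 ≤ q := by rw [hq]; positivity
  have hL3 : (3 : ℝ) ≤ L := by
    have : 3 ≤ L := by omega
    exact_mod_cast this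
  have hq1 : q ≤ 1 / 3 := by
    rw [hq]
    exact one_div_le_one_div_of_le (by norm_num) hL3
  have hp1 : q ^ d ≤ 1 := pow_le_one₀ hq0 (by linarith)
  have hpn : 4 * (s0 : ℝ) ≤ n * q ^ d := by
    rw [hq, one_div, inv_pow, ← div_eq_mul_inv, le_div_iff₀ (by positivity)]
    have h1 : (s0 : ℝ) * (4 * (L : ℝ) ^ d) ≤ n := by exact_mod_cast hs0a
    linarith
  have hnk : (n : ℝ) ≤ 2 ^ k := by exact_mod_cast hn
  have hn0 : (0 : ℝ) ≤ n := Nat.cast_nonneg n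
  -- the error terms
  have hβ : 1 / 2 ^ (n / 2) + n * (2 ^ s0 * (1 - q ^ d / 2) ^ n +
        ((n : ℝ) + 1) ^ (s0 / (4 * (k + 2))) * 2 ^ (s0 / 2 + s0 / (4 * (k + 2))) / 2 ^ s0) +
      (Fintype.card A * w : ℕ) * (d * ((2 ^ k : ℕ) : ℝ) * (12 * (s' : ℝ) * q) ^ (s' + 1)) ≤
        γ / 2 := by
    have t0 : (1 : ℝ) / 2 ^ (n / 2) ≤ 1 / 2 ^ (k + 4) := by
      apply one_div_le_one_div_of_le (by positivity)
      apply pow_le_pow_right₀ (by norm_num)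
      omega
    have t1 : (2 : ℝ) ^ s0 * (1 - q ^ d / 2) ^ n ≤ 1 / 2 ^ (2 * k + 4) := by
      refine (few_term hp1 hpn).trans ?_
      apply one_div_le_one_div_of_le (by positivity)
      apply pow_le_pow_right₀ (by norm_num)
      omega
    have t2 := cnt_term (s0 := s0) hn (by omega)
    have t3 : ((Fintype.card A * w : ℕ) : ℝ) * (d * ((2 ^ k : ℕ) : ℝ) *
        (12 * (s' : ℝ) * q) ^ (s' + 1)) ≤ 1 / 2 ^ (k + 4) := by
      rw [hs', hq, hLd]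
      exact circ_term hA
    have t4 : (n : ℝ) * (2 ^ s0 * (1 - q ^ d / 2) ^ n +
        ((n : ℝ) + 1) ^ (s0 / (4 * (k + 2))) * 2 ^ (s0 / 2 + s0 / (4 * (k + 2))) / 2 ^ s0) ≤
        2 * (1 / 2 ^ (k + 4)) := by
      calc (n : ℝ) * (2 ^ s0 * (1 - q ^ d / 2) ^ n +
          ((n : ℝ) + 1) ^ (s0 / (4 * (k + 2))) * 2 ^ (s0 / 2 + s0 / (4 * (k + 2))) / 2 ^ s0) ≤
            n * (1 / 2 ^ (2 * k + 4) + 1 / 2 ^ (2 * k + 4)) := by
            apply mul_le_mul_of_nonneg_left _ hn0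
            exact add_le_add t1 t2
        _ ≤ 2 ^ k * (1 / 2 ^ (2 * k + 4) + 1 / 2 ^ (2 * k + 4)) := by
            apply mul_le_mul_of_nonneg_right hnk (by positivity)
        _ = 2 * (1 / 2 ^ (k + 4)) := by
            have h7 : (2 : ℝ) ^ (2 * k + 4) = 2 ^ k * 2 ^ (k + 4) := by
              rw [← pow_add]
              congr 1
              ring
            rw [h7]
            field_simp
            norm_num
    have t5 : 4 * (1 / (2 : ℝ) ^ (k + 4)) ≤ γ / 2 := by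
      have h8 : (1 : ℝ) / 2 ^ (k + 4) = (1 / 2 ^ k) / 16 := by
        rw [pow_add]
        field_simp
        norm_num
      rw [h8]
      have : (0 : ℝ) < 1 / 2 ^ k := by positivity
      linarith
    linarith
  have hcore := core alg μ hμ hR hDS hq0 hq1 (k := s') (by omega) (s0 / 2)
    (s0 / (4 * (k + 2))) s0 (n / 2) (by
      have h1 : s0 * 1 ≤ s0 * (4 * L ^ d) := Nat.mul_le_mul_left _ (by
        have : 1 ≤ L ^ d := hLd0
        omega)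
      omega) hβ
  have hγ0 : 0 < γ := lt_of_lt_of_le (by positivity) hγ
  set T := avg (fun M vs => ∑ ω, μ ω * ∑ q, ((alg.probes ω M vs q).length : ℝ)) with hT
  -- the product
  obtain ⟨Q, hQ⟩ : ∃ Q : ℕ, Q = s0 / 2 := ⟨_, rfl⟩
  obtain ⟨D0, hD0⟩ : ∃ D0 : ℕ, D0 = s0 / (4 * (k + 2)) := ⟨_, rfl⟩
  rw [← hQ, ← hD0] at hcore
  have g1 : n ≤ 8 * L ^ d * s0 := by
    have h1 : (s0 + 1) * (4 * L ^ d) ≤ (2 * s0) * (4 * L ^ d) :=
      Nat.mul_le_mul_right _ (by omega)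
    have h2 : (2 * s0) * (4 * L ^ d) = 8 * L ^ d * s0 := by ring
    omega
  have g2 : s0 ≤ 4 * Q := by omega
  have g3 : s0 ≤ 8 * (k + 2) * D0 := by
    have h1 : 1 ≤ D0 := by
      rw [hD0]
      apply Nat.div_pos _ (by omega)
      omega
    have h2 : s0 < 4 * (k + 2) * (D0 + 1) := by
      rw [hD0]
      exact Nat.lt_mul_div_succ s0 (by omega)
    have h3 : 4 * (k + 2) * (D0 + 1) ≤ 4 * (k + 2) * (2 * D0) :=
      Nat.mul_le_mul_left _ (by omega)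
    have h4 : 4 * (k + 2) * (2 * D0) = 8 * (k + 2) * D0 := by ring
    omega
  have g4 : n ≤ 2 * (n - n / 2) := by omega
  have g5 : n ^ 3 ≤ 4096 * (k + 2) * L ^ (2 * d) * (Q * (D0 * (n - n / 2))) := by
    calc n ^ 3 = n * n * n := by ring
      _ ≤ (8 * L ^ d * s0) * (8 * L ^ d * s0) * (2 * (n - n / 2)) :=
          Nat.mul_le_mul (Nat.mul_le_mul g1 g1) g4
      _ = 64 * L ^ (2 * d) * (s0 * s0) * (2 * (n - n / 2)) := by
          rw [two_mul d, pow_add]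
          ring
      _ ≤ 64 * L ^ (2 * d) * ((4 * Q) * (8 * (k + 2) * D0)) * (2 * (n - n / 2)) := by
          apply Nat.mul_le_mul_right
          apply Nat.mul_le_mul_left
          exact Nat.mul_le_mul g2 g3
      _ = 4096 * (k + 2) * L ^ (2 * d) * (Q * (D0 * (n - n / 2))) := by ring
  have g5' : (n : ℝ) ^ 3 ≤ 4096 * (k + 2) * (L : ℝ) ^ (2 * d) *
      (Q * ((D0 * (n - n / 2) : ℕ) : ℝ)) := by
    exact_mod_cast g5
  have g6 : γ * (n : ℝ) ^ 3 ≤ 8192 * (k + 2) * (L : ℝ) ^ (2 * d) *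
      (Q * (((D0 * (n - n / 2) : ℕ) : ℝ) * (γ - γ / 2))) := by
    calc γ * (n : ℝ) ^ 3 ≤ γ * (4096 * (k + 2) * (L : ℝ) ^ (2 * d) *
          (Q * ((D0 * (n - n / 2) : ℕ) : ℝ))) := mul_le_mul_of_nonneg_left g5' hγ0.le
      _ = _ := by ring
  have g7 : γ * (n : ℝ) ^ 3 ≤ 8192 * (k + 2) * (L : ℝ) ^ (2 * d) * (s' * w * T) :=
    g6.trans (mul_le_mul_of_nonneg_left hcore (by positivity))
  refine g7.trans ?_
  have hT0 : 0 ≤ T := by
    rw [hT]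
    unfold Pool.Agent.H699R2.OMV.avg
    apply div_nonneg _ (by positivity)
    apply Finset.sum_nonneg
    intro M _
    apply Finset.sum_nonneg
    intro vs _
    apply Finset.sum_nonneg
    intro ω _
    exact mul_nonneg (hμ.nonneg ω) (Finset.sum_nonneg (fun q _ => Nat.cast_nonneg _))
  have g8 : 8192 * ((k : ℝ) + 2) * s' ≤ 10 * (L : ℝ) ^ 2 := by
    have h1 : (L : ℝ) = 24 * s' := by rw [hLs]; push_cast; ring
    have h2 : 36 * ((k : ℝ) + 2) ≤ L := by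
      have : 36 * (k + 2) ≤ L := by omega
      exact_mod_cast this
    have h3 : (0 : ℝ) ≤ s' := Nat.cast_nonneg _
    nlinarith
  have hL2 : (0 : ℝ) ≤ (L : ℝ) ^ (2 * d) := by positivity
  have hwT : 0 ≤ (w : ℝ) * T := mul_nonneg (Nat.cast_nonneg _) hT0
  calc 8192 * ((k : ℝ) + 2) * (L : ℝ) ^ (2 * d) * (s' * w * T) =
        (8192 * ((k : ℝ) + 2) * s') * ((L : ℝ) ^ (2 * d) * (w * T)) := by ring
    _ ≤ (10 * (L : ℝ) ^ 2) * ((L : ℝ) ^ (2 * d) * (w * T)) :=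
        mul_le_mul_of_nonneg_right g8 (mul_nonneg hL2 hwT)
    _ = 10 * (L : ℝ) ^ (2 * d + 2) * (w * T) := by ring

end Pool.Agent.TH163.AC3
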