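import Pool.Agent.TH163.AC3.Tree

/-!
# The switching lemma for decision trees (Hastad, Razborov)
-/

set_option autoImplicit false

namespace Pool.Agent.TH163.AC3

open Finset H568R2

variable {I : Type} [Fintype I] [DecidableEq I]

/-- paths in the canonical decision tree of the restricted formula, encoded by a restriction -/
inductive Path (L : List (Term I)) : ℕ → Restr I → Restr I → Prop
  | last (ρ : Restr I) (T : Term I) (A : Finset I) : L.find? (nonfals ρ) = some T →
      A ⊆ stars ρ T → A.Nonempty → Path L A.card ρ (setOn ρ A T.2)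
  | step (ρ : Restr I) (T : Term I) (π : I → Bool) (s : ℕ) (ρ'' : Restr I) :
      L.find? (nonfals ρ) = some T → (stars ρ T).Nonempty →
      Path L s (setOn ρ (stars ρ T) π) ρ'' →
      Path L ((stars ρ T).card + s) ρ (setOn ρ'' (stars ρ T) T.2)

lemma star_none {ρ : Restr I} {T : Term I} {i : I} (hi : i ∈ stars ρ T) : ρ i = none :=
  (Finset.mem_filter.1 hi).2

lemma Path_ext {L : List (Term I)} {s : ℕ} {ρ ρ' : Restr I} (h : Path L s ρ ρ') :
    ∀ i b, ρ i = some b → ρ' i = some b := by
  induction h with
  | last ρ T A _ hA _ =>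
    intro i b hi
    unfold setOn
    rw [if_neg]
    · exact hi
    · intro hiA
      rw [star_none (hA hiA)] at hi
      cases hi
  | step ρ T π s ρ'' _ _ _ ih =>
    intro i b hi
    have hiA : i ∉ stars ρ T := by
      intro hA
      rw [star_none hA] at hi
      cases hi
    have h1 : setOn ρ (stars ρ T) π i = some b := by
      unfold setOn; rw [if_neg hiA]; exact hi
    have h2 := ih i b h1
    unfold setOn
    rw [if_neg hiA]
    exact h2

lemma prod_setOn_pow {q : ℝ} (h0 : 0 ≤ q) (h1 : q ≤ 1 / 3) (ρ : Restr I) (π : I → Bool)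
    (A : Finset I) : (∀ i ∈ A, ρ i = none) →
    ∏ i, wq q (ρ i) ≤ (3 * q) ^ A.card * ∏ i, wq q (setOn ρ A π i) := by
  induction A using Finset.induction_on with
  | empty =>
    intro _
    rw [Finset.card_empty, pow_zero, one_mul]
    apply le_of_eq
    apply Finset.prod_congr rfl
    intro i _
    unfold setOn
    simp
  | insert j A hj ih =>
    intro hs
    have h2 := ih (fun i hi => hs i (Finset.mem_insert_of_mem hi))
    have h3 := prod_setOn_le h0 h1 (setOn ρ A π) {j} (Finset.singleton_nonempty j) (by
      intro i hi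
      rw [Finset.mem_singleton] at hi
      subst hi
      unfold setOn
      rw [if_neg hj]
      exact hs i (Finset.mem_insert_self _ _)) π
    have h4 : setOn (setOn ρ A π) {j} π = setOn ρ (insert j A) π := by
      funext i
      unfold setOn
      by_cases hi : i = j
      · subst hi
        simp
      · by_cases hiA : i ∈ A
        · simp [hi, hiA]
        · simp [hi, hiA]
    rw [h4] at h3
    rw [Finset.card_insert_of_notMem hj]
    calc ∏ i, wq q (ρ i) ≤ (3 * q) ^ A.card * ∏ i, wq q (setOn ρ A π i) := h2
      _ ≤ (3 * q) ^ A.card * (3 * q * ∏ i, wq q (setOn ρ (insert j A) π i)) :=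
        mul_le_mul_of_nonneg_left h3 (by positivity)
      _ = (3 * q) ^ (A.card + 1) * ∏ i, wq q (setOn ρ (insert j A) π i) := by ring

lemma Path_weight {q : ℝ} (h0 : 0 ≤ q) (h1 : q ≤ 1 / 3) {L : List (Term I)} {s : ℕ}
    {ρ ρ' : Restr I} (h : Path L s ρ ρ') :
    ∏ i, wq q (ρ i) ≤ (3 * q) ^ s * ∏ i, wq q (ρ' i) := by
  induction h with
  | last ρ T A _ hA _ =>
    exact prod_setOn_pow h0 h1 ρ T.2 A (fun i hi => star_none (hA hi))
  | step ρ T π s ρ'' _ _ hP ih =>
    have a1 := prod_setOn_pow h0 h1 ρ π (stars ρ T) (fun i hi => star_none hi)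
    have a3 : ∏ i, wq q (setOn ρ'' (stars ρ T) T.2 i) = ∏ i, wq q (ρ'' i) := by
      refine Finset.prod_congr rfl fun i _ => ?_
      unfold setOn
      by_cases hi : i ∈ stars ρ T
      · rw [if_pos hi]
        have : ρ'' i = some (π i) := Path_ext hP i (π i) (by unfold setOn; rw [if_pos hi])
        rw [this]; rfl
      · rw [if_neg hi]
    rw [a3]
    calc ∏ i, wq q (ρ i) ≤ (3 * q) ^ (stars ρ T).card *
          ∏ i, wq q (setOn ρ (stars ρ T) π i) := a1
      _ ≤ (3 * q) ^ (stars ρ T).card * ((3 * q) ^ s * ∏ i, wq q (ρ'' i)) :=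
        mul_le_mul_of_nonneg_left ih (by positivity)
      _ = (3 * q) ^ ((stars ρ T).card + s) * ∏ i, wq q (ρ'' i) := by ring

lemma sum_half (N : ℕ) :
    ∑ a ∈ Finset.range N, (if 1 ≤ a then ((1 : ℝ) / 2) ^ a else 0) ≤ 1 := by
  have h : ∀ N : ℕ, ∑ a ∈ Finset.range (N + 1), (if 1 ≤ a then ((1 : ℝ) / 2) ^ a else 0) =
      1 - (1 / 2) ^ N := by
    intro N
    induction N with
    | zero => simp
    | succ N ih =>
      rw [Finset.sum_range_succ, ih, if_pos (by omega)]
      ring
  cases N with
  | zero => simp
  | succ N =>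
    rw [h]
    have : (0 : ℝ) ≤ (1 / 2) ^ N := by positivity
    linarith

/-- the number of ways to choose the variables of one stage -/
lemma stage_sum (T : Finset I) (t s : ℕ) (hT : T.card ≤ t) (hs : 1 ≤ s) :
    ∑ A ∈ T.powerset, (if A.card = s then (1 : ℝ) else if 1 ≤ A.card ∧ A.card < s then
      2 ^ A.card * (4 * t : ℝ) ^ (s - A.card) else 0) ≤ (4 * t : ℝ) ^ s := by
  rw [Finset.sum_powerset_apply_card (fun a => if a = s then (1 : ℝ) else if 1 ≤ a ∧ a < s then
      2 ^ a * (4 * t : ℝ) ^ (s - a) else 0)]
  have hterm : ∀ a ∈ Finset.range (T.card + 1), (T.card.choose a) • (if a = s then (1 : ℝ) else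
      if 1 ≤ a ∧ a < s then 2 ^ a * (4 * t : ℝ) ^ (s - a) else 0) ≤
      (4 * t : ℝ) ^ s * (if 1 ≤ a then ((1 : ℝ) / 2) ^ a else 0) := by
    intro a _
    rw [nsmul_eq_mul]
    have hch : ((T.card.choose a : ℕ) : ℝ) ≤ (t : ℝ) ^ a := by
      have : T.card.choose a ≤ t ^ a :=
        (Nat.choose_le_pow _ _).trans (Nat.pow_le_pow_left hT a)
      exact_mod_cast this
    by_cases h1 : a = s
    · rw [if_pos h1, mul_one, if_pos (by omega), ← h1]
      refine hch.trans ?_
      rw [← mul_pow]
      apply pow_le_pow_left₀ (by positivity)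
      have : (0 : ℝ) ≤ t := by positivity
      linarith
    · rw [if_neg h1]
      by_cases h2 : 1 ≤ a ∧ a < s
      · rw [if_pos h2, if_pos h2.1]
        calc ((T.card.choose a : ℕ) : ℝ) * (2 ^ a * (4 * t : ℝ) ^ (s - a)) ≤
              (t : ℝ) ^ a * (2 ^ a * (4 * t : ℝ) ^ (s - a)) :=
              mul_le_mul_of_nonneg_right hch (by positivity)
          _ = (4 * t : ℝ) ^ s * ((1 : ℝ) / 2) ^ a := by
              have h3 : (4 * t : ℝ) ^ s = (4 * t : ℝ) ^ a * (4 * t : ℝ) ^ (s - a) := by
                rw [← pow_add]
                congr 1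
                omega
              rw [h3]
              have h4 : (t : ℝ) ^ a * 2 ^ a = (4 * t : ℝ) ^ a * (1 / 2) ^ a := by
                rw [← mul_pow, ← mul_pow]
                congr 1
                ring
              rw [← mul_assoc, h4]
              ring
      · rw [if_neg h2, mul_zero]
        split_ifs <;> positivity
  refine (Finset.sum_le_sum hterm).trans ?_
  rw [← Finset.mul_sum]
  have := mul_le_mul_of_nonneg_left (sum_half (T.card + 1))
    (show (0 : ℝ) ≤ (4 * t : ℝ) ^ s by positivity)
  linarith

open Classical in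
lemma Path_count {L : List (Term I)} {t : ℕ} (hL : ∀ T ∈ L, T.1.card ≤ t) :
    ∀ (s : ℕ) (ρ' : Restr I),
      ((univ.filter (fun ρ : Restr I => Path L s ρ ρ')).card : ℝ) ≤ (4 * t : ℝ) ^ s := by
  intro s
  induction s using Nat.strong_induction_on with
  | _ s ih =>
  intro ρ'
  have hnfT : ∀ (ρ : Restr I) (T : Term I), nonfals ρ T = true → (∀ i b, ρ i = some b →
      ρ' i = some b) → (∀ i ∈ stars ρ T, ρ' i = some (T.2 i) ∨ ρ' i = none) →
      nonfals ρ' T = true := by
    intro ρ T hnf hext hst
    rw [nonfals, decide_eq_true_eq] at hnf ⊢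
    intro i hi
    by_cases his : i ∈ stars ρ T
    · rcases hst i his with h | h
      · right; exact h
      · left; exact h
    · rcases hnf i hi with h | h
      · exact absurd (Finset.mem_filter.2 ⟨hi, h⟩) his
      · right; exact hext i _ h
  have hback : ∀ (ρ : Restr I), (∀ i b, ρ i = some b → ρ' i = some b) →
      ∀ S : Term I, nonfals ρ' S = true → nonfals ρ S = true := by
    intro ρ hext S hS
    rw [nonfals, decide_eq_true_eq] at hS ⊢
    intro i hi
    cases hρi : ρ i with
    | none => left; rfl
    | some b =>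
      right
      have := hext i b hρi
      rcases hS i hi with h | h
      · rw [this] at h; cases h
      · rw [this] at h; exact h
  -- the first term of a path is determined by `ρ'`
  have hfind : ∀ ρ : Restr I, Path L s ρ ρ' → ∃ T : Term I, L.find? (nonfals ρ') = some T ∧
      1 ≤ s ∧
      ((∃ A ∈ T.1.powerset, A.card = s ∧ ρ = unset ρ' A) ∨
       (∃ A ∈ T.1.powerset, (1 ≤ A.card ∧ A.card < s) ∧ ∃ P ∈ A.powerset, ∃ ρ₁ : Restr I,
          Path L (s - A.card) ρ₁ (setOn ρ' A (fun i => decide (i ∈ P))) ∧
          ρ = unset ρ₁ A)) := by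
    intro ρ h
    have hext := Path_ext h
    cases h with
    | last _ T A hf hA hne =>
      have hnf := List.find?_some hf
      have hmem : A ⊆ T.1 := hA.trans (Finset.filter_subset _ _)
      refine ⟨T, ?_, hne.card_pos, Or.inl ⟨A, Finset.mem_powerset.2 hmem, rfl, ?_⟩⟩
      · apply find_eq L (nonfals ρ) _ T hf (hback ρ hext)
        apply hnfT ρ T hnf hext
        intro i hi
        unfold setOn
        by_cases hiA : i ∈ A
        · left; rw [if_pos hiA]
        · right; rw [if_neg hiA]; exact star_none hi
      · funext i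
        unfold unset setOn
        by_cases hiA : i ∈ A
        · rw [if_pos hiA]
          exact star_none (hA hiA)
        · rw [if_neg hiA, if_neg hiA]
    | step _ T π s' ρ'' hf hne hP =>
      have hnf := List.find?_some hf
      have hs' : 1 ≤ s' := by
        cases hP with
        | last _ _ A _ _ hne' => exact hne'.card_pos
        | step _ _ _ _ _ _ hne' _ =>
          have := hne'.card_pos
          omega
      have ha := hne.card_pos
      refine ⟨T, ?_, by omega, Or.inr ⟨stars ρ T,
        Finset.mem_powerset.2 (Finset.filter_subset _ _), ⟨ha, by omega⟩,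
        (stars ρ T).filter (fun i => π i = true),
        Finset.mem_powerset.2 (Finset.filter_subset _ _), setOn ρ (stars ρ T) π, ?_, ?_⟩⟩
      · apply find_eq L (nonfals ρ) _ T hf (hback ρ hext)
        apply hnfT ρ T hnf hext
        intro i hi
        left
        unfold setOn
        rw [if_pos hi]
      · have h1 : (stars ρ T).card + s' - (stars ρ T).card = s' := by omega
        rw [h1]
        convert hP using 1
        funext i
        unfold setOn
        by_cases his : i ∈ stars ρ T
        · rw [if_pos his]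
          have : ρ'' i = some (π i) := Path_ext hP i (π i) (by unfold setOn; rw [if_pos his])
          rw [this]
          simp [his]
        · rw [if_neg his, if_neg his]
      · funext i
        unfold unset setOn
        by_cases his : i ∈ stars ρ T
        · simp only [his, if_true]
          exact star_none his
        · simp only [his, if_false]
  cases hT : L.find? (nonfals ρ') with
  | none =>
    have : (univ.filter (fun ρ : Restr I => Path L s ρ ρ')) = ∅ := by
      rw [Finset.filter_eq_empty_iff]
      rintro ρ - h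
      obtain ⟨T, hf, _⟩ := hfind ρ h
      rw [hT] at hf
      cases hf
    rw [this]
    simp only [Finset.card_empty, Nat.cast_zero]
    positivity
  | some T =>
    have hTmem := List.mem_of_find?_eq_some hT
    by_cases hs : 1 ≤ s
    swap
    · have : (univ.filter (fun ρ : Restr I => Path L s ρ ρ')) = ∅ := by
        rw [Finset.filter_eq_empty_iff]
        rintro ρ - h
        obtain ⟨_, _, h1, _⟩ := hfind ρ h
        exact hs h1
      rw [this]
      simp only [Finset.card_empty, Nat.cast_zero]
      positivity
    let Fam : Finset I → Finset (Restr I) := fun A =>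
      if A.card = s then {unset ρ' A} else if 1 ≤ A.card ∧ A.card < s then
        A.powerset.biUnion (fun P => (univ.filter (fun ρ₁ : Restr I =>
          Path L (s - A.card) ρ₁ (setOn ρ' A (fun i => decide (i ∈ P))))).image
            (fun ρ₁ => unset ρ₁ A)) else ∅
    have hsub : (univ.filter (fun ρ : Restr I => Path L s ρ ρ')) ⊆ T.1.powerset.biUnion Fam := by
      intro ρ hρ
      obtain ⟨T', hf, _, hc⟩ := hfind ρ (Finset.mem_filter.1 hρ).2
      rw [hT] at hf
      have hTT := Option.some.inj hf
      subst hTT
      rw [Finset.mem_biUnion]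
      rcases hc with ⟨A, hA, hAs, hρA⟩ | ⟨A, hA, hAs, P, hP, ρ₁, hρ₁, hρA⟩
      · refine ⟨A, hA, ?_⟩
        simp only [Fam, if_pos hAs, Finset.mem_singleton]
        exact hρA
      · refine ⟨A, hA, ?_⟩
        have hne : ¬ A.card = s := by omega
        simp only [Fam, if_neg hne, if_pos hAs]
        rw [Finset.mem_biUnion]
        refine ⟨P, hP, ?_⟩
        rw [Finset.mem_image]
        exact ⟨ρ₁, Finset.mem_filter.2 ⟨Finset.mem_univ _, hρ₁⟩, hρA.symm⟩
    have hcard : ∀ A ∈ T.1.powerset, ((Fam A).card : ℝ) ≤ (if A.card = s then (1 : ℝ) else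
        if 1 ≤ A.card ∧ A.card < s then 2 ^ A.card * (4 * t : ℝ) ^ (s - A.card) else 0) := by
      intro A _
      by_cases h1 : A.card = s
      · simp only [Fam, if_pos h1, Finset.card_singleton, Nat.cast_one, le_refl]
      · by_cases h2 : 1 ≤ A.card ∧ A.card < s
        · simp only [Fam, if_neg h1, if_pos h2]
          have h3 : ((A.powerset.biUnion (fun P => (univ.filter (fun ρ₁ : Restr I =>
              Path L (s - A.card) ρ₁ (setOn ρ' A (fun i => decide (i ∈ P))))).image
              (fun ρ₁ => unset ρ₁ A))).card : ℝ) ≤ ∑ P ∈ A.powerset,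
              (4 * t : ℝ) ^ (s - A.card) := by
            have h4 := Finset.card_biUnion_le (s := A.powerset) (t := fun P =>
              (univ.filter (fun ρ₁ : Restr I =>
              Path L (s - A.card) ρ₁ (setOn ρ' A (fun i => decide (i ∈ P))))).image
              (fun ρ₁ => unset ρ₁ A))
            have h5 := (Nat.cast_le (α := ℝ)).2 h4
            refine h5.trans ?_
            rw [Nat.cast_sum]
            apply Finset.sum_le_sum
            intro P _
            exact ((Nat.cast_le (α := ℝ)).2 Finset.card_image_le).trans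
              (ih (s - A.card) (by omega) _)
          refine h3.trans (le_of_eq ?_)
          rw [Finset.sum_const, Finset.card_powerset, nsmul_eq_mul]
          push_cast
          rfl
        · simp only [Fam, if_neg h1, if_neg h2, Finset.card_empty, Nat.cast_zero, le_refl]
    have h6 := (Nat.cast_le (α := ℝ)).2 ((Finset.card_le_card hsub).trans Finset.card_biUnion_le)
    refine h6.trans ?_
    rw [Nat.cast_sum]
    exact (Finset.sum_le_sum hcard).trans (stage_sum T.1 t s (hL T hTmem) hs)

/-- a restricted formula without a shallow decision tree has a long path -/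
lemma Path_exists {L : List (Term I)} : ∀ (s : ℕ) (ρ : Restr I),
    ¬ HasDT s (rs (dnf L) ρ) → ∃ ρ', Path L (s + 1) ρ ρ' := by
  intro s
  induction s using Nat.strong_induction_on with
  | _ s ih =>
  intro ρ hno
  cases hT : L.find? (nonfals ρ) with
  | none =>
    exfalso
    apply hno
    apply hasDT_const false
    intro x
    rw [List.find?_eq_none] at hT
    simp only [rs, dnf, decide_eq_false_iff_not, not_exists, not_and]
    intro T hTL hx
    apply hT T hTL
    rw [nonfals, decide_eq_true_eq]
    intro i hi
    have := hx i hi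
    unfold ov at this
    cases hρ : ρ i with
    | none => left; rfl
    | some b => rw [hρ] at this; right; simp at this; rw [this]
  | some T =>
    have hTmem := List.mem_of_find?_eq_some hT
    have hnf := List.find?_some hT
    rw [nonfals, decide_eq_true_eq] at hnf
    by_cases hne : (stars ρ T).Nonempty
    swap
    · exfalso
      apply hno
      apply hasDT_const true
      intro x
      simp only [rs, dnf, decide_eq_true_eq]
      refine ⟨T, hTmem, ?_⟩
      intro i hi
      rcases hnf i hi with h | h
      · exact absurd ⟨i, Finset.mem_filter.2 ⟨hi, h⟩⟩ hne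
      · unfold ov; rw [h]; rfl
    by_cases hcard : s + 1 ≤ (stars ρ T).card
    · obtain ⟨A, hA, hAc⟩ := Finset.exists_subset_card_eq hcard
      refine ⟨setOn ρ A T.2, ?_⟩
      rw [← hAc]
      exact Path.last ρ T A hT hA (Finset.card_pos.1 (by omega))
    · have hpos := hne.card_pos
      have h1 : ¬ ∀ π : I → Bool, HasDT (s - (stars ρ T).card)
          (fun x => rs (dnf L) ρ (ovr (stars ρ T) π x)) := by
        intro hall
        apply hno
        have := hasDT_query (stars ρ T) (rs (dnf L) ρ) (s - (stars ρ T).card) hall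
        have h2 : (stars ρ T).card + (s - (stars ρ T).card) = s := by omega
        rwa [h2] at this
      rw [not_forall] at h1
      obtain ⟨π, hπ⟩ := h1
      have h3 : (fun x => rs (dnf L) ρ (ovr (stars ρ T) π x)) =
          rs (dnf L) (setOn ρ (stars ρ T) π) := by
        funext x
        unfold rs
        congr 1
        funext i
        unfold ov ovr setOn
        by_cases hi : i ∈ stars ρ T
        · rw [if_pos hi, if_pos hi, star_none hi]
          rfl
        · rw [if_neg hi, if_neg hi]
      rw [h3] at hπ
      obtain ⟨ρ'', hρ''⟩ := ih (s - (stars ρ T).card) (by omega) _ hπ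
      refine ⟨setOn ρ'' (stars ρ T) T.2, ?_⟩
      have h4 := Path.step ρ T π _ ρ'' hT hne hρ''
      have h5 : (stars ρ T).card + (s - (stars ρ T).card + 1) = s + 1 := by omega
      rwa [h5] at h4

lemma HasDT.not {s : ℕ} {f : (I → Bool) → Bool} (h : HasDT s f) :
    HasDT s (fun x => !f x) := by
  obtain ⟨t, ht, he⟩ := h
  have key : ∀ t : Tree I, ∃ t' : Tree I, t'.depth = t.depth ∧ ∀ x, t'.eval x = !t.eval x := by
    intro t
    induction t with
    | leaf b => exact ⟨Tree.leaf (!b), rfl, fun x => rfl⟩
    | node i a b iha ihb =>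
      obtain ⟨a', ha1, ha2⟩ := iha
      obtain ⟨b', hb1, hb2⟩ := ihb
      refine ⟨Tree.node i a' b', ?_, ?_⟩
      · unfold Tree.depth
        rw [ha1, hb1]
      · intro x
        unfold Tree.eval
        by_cases hx : x i = true
        · rw [if_pos hx, if_pos hx, hb2]
        · rw [if_neg hx, if_neg hx, ha2]
  obtain ⟨t', ht', he'⟩ := key t
  exact ⟨t', by rw [ht']; exact ht, fun x => by rw [he', he]⟩

open Classical in
/-- **the switching lemma** -/
theorem switching' {t s : ℕ} {q : ℝ} (h0 : 0 ≤ q) (h1 : q ≤ 1 / 3) {b : Bool}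
    {f : (I → Bool) → Bool} (hf : Cert t b f) :
    Ex (wq q) (fun ρ : Restr I => if ¬ HasDT s (rs f ρ) then (1 : ℝ) else 0) ≤
      (12 * t * q) ^ (s + 1) := by
  wlog hb : b = true generalizing b f
  · have hb' : b = false := by simpa using hb
    subst hb'
    have hf' : Cert t true (fun x => !f x) := by
      intro x hx
      obtain ⟨A, hA, hy⟩ := hf x (by simpa using hx)
      exact ⟨A, hA, fun y h => by simp [hy y h]⟩
    have := this hf' rfl
    refine le_trans (Ex_mono (wq_nonneg h0 (by linarith)) fun ρ => ?_) this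
    by_cases hJ : HasDT s (rs f ρ)
    · simp only [hJ, not_true, if_false]
      split_ifs <;> norm_num
    · have hJ' : ¬ HasDT s (rs (fun x => !f x) ρ) := by
        intro h
        apply hJ
        have h2 := h.not
        have : (fun x => !(rs (fun x => !f x) ρ x)) = rs f ρ := by
          funext x; simp [rs]
        rwa [this] at h2
      simp only [hJ, hJ', not_false_iff, if_true, le_refl]
  subst hb
  obtain ⟨L, hL, rfl⟩ := cert_dnf hf
  have hstep : ∀ ρ : Restr I, (∏ i, wq q (ρ i)) *
      (if ¬ HasDT s (rs (dnf L) ρ) then (1 : ℝ) else 0) ≤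
      ∑ ρ' : Restr I, if Path L (s + 1) ρ ρ' then (3 * q) ^ (s + 1) * ∏ i, wq q (ρ' i) else 0 := by
    intro ρ
    have hnn : ∀ ρ' : Restr I, 0 ≤ (if Path L (s + 1) ρ ρ' then
        (3 * q) ^ (s + 1) * ∏ i, wq q (ρ' i) else 0) := by
      intro ρ'
      split_ifs
      · exact mul_nonneg (by positivity)
          (Finset.prod_nonneg fun i _ => wq_nonneg h0 (by linarith) _)
      · exact le_refl _
    by_cases hJ : HasDT s (rs (dnf L) ρ)
    · simp only [hJ, not_true, if_false, mul_zero]
      exact Finset.sum_nonneg fun ρ' _ => hnn ρ'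
    · obtain ⟨ρ', hE⟩ := Path_exists s ρ hJ
      simp only [hJ, not_false_iff, if_true, mul_one]
      refine (Path_weight h0 h1 hE).trans ?_
      have := Finset.single_le_sum (fun ρ' _ => hnn ρ') (Finset.mem_univ ρ')
      rw [if_pos hE] at this
      exact this
  unfold Ex
  refine (Finset.sum_le_sum fun ρ _ => hstep ρ).trans ?_
  rw [Finset.sum_comm]
  have hin : ∀ ρ' : Restr I, ∑ ρ : Restr I,
      (if Path L (s + 1) ρ ρ' then (3 * q) ^ (s + 1) * ∏ i, wq q (ρ' i) else 0) ≤
      (12 * t * q) ^ (s + 1) * ∏ i, wq q (ρ' i) := by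
    intro ρ'
    rw [← Finset.sum_filter, Finset.sum_const, nsmul_eq_mul]
    have hc' := Path_count hL (s + 1) ρ'
    have hp : 0 ≤ (3 * q) ^ (s + 1) * ∏ i, wq q (ρ' i) := mul_nonneg (by positivity)
          (Finset.prod_nonneg fun i _ => wq_nonneg h0 (by linarith) _)
    calc _ ≤ (4 * t : ℝ) ^ (s + 1) * ((3 * q) ^ (s + 1) * ∏ i, wq q (ρ' i)) :=
          mul_le_mul_of_nonneg_right hc' hp
      _ = (12 * t * q) ^ (s + 1) * ∏ i, wq q (ρ' i) := by
          rw [← mul_assoc, ← mul_pow]
          congr 2
          ring
  refine (Finset.sum_le_sum fun ρ' _ => hin ρ').trans ?_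
  rw [← Finset.mul_sum]
  have hs : ∑ ρ' : Restr I, ∏ i, wq q (ρ' i) = 1 := by
    have := Ex_const (I := I) (wq_sum q) (1 : ℝ)
    unfold Ex at this
    simpa using this
  rw [hs, mul_one]

end Pool.Agent.TH163.AC3
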