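import Pool.Agent.H568R2.Collapse

/-!
# Decision trees
-/

set_option autoImplicit false

namespace Pool.Agent.TH163.AC3

open Finset H568R2

/-- decision trees -/
inductive Tree (I : Type) : Type
  | leaf : Bool → Tree I
  | node : I → Tree I → Tree I → Tree I

namespace Tree

variable {I : Type} [DecidableEq I]

/-- the value of a tree -/
def eval : Tree I → (I → Bool) → Bool
  | leaf b, _ => b
  | node i a b, x => if x i = true then b.eval x else a.eval x

/-- the variables which are read on the input `x` -/
def reads : Tree I → (I → Bool) → Finset I
  | leaf _, _ => ∅
  | node i a b, x => insert i (if x i = true then b.reads x else a.reads x)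

/-- the depth of a tree -/
def depth : Tree I → ℕ
  | leaf _ => 0
  | node _ a b => max a.depth b.depth + 1

lemma card_reads (t : Tree I) (x : I → Bool) : (t.reads x).card ≤ t.depth := by
  induction t with
  | leaf b => simp [reads, depth]
  | node i a b iha ihb =>
    unfold reads depth
    refine (Finset.card_insert_le _ _).trans ?_
    by_cases h : x i = true
    · rw [if_pos h]
      have := le_max_right a.depth b.depth
      omega
    · rw [if_neg h]
      have := le_max_left a.depth b.depth
      omega

lemma congr (t : Tree I) (x y : I → Bool) (h : ∀ i ∈ t.reads x, y i = x i) :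
    t.eval y = t.eval x ∧ t.reads y = t.reads x := by
  induction t with
  | leaf b => exact ⟨rfl, rfl⟩
  | node i a b iha ihb =>
    have hi : y i = x i := h i (by unfold reads; exact Finset.mem_insert_self _ _)
    by_cases hx : x i = true
    · have h2 := ihb (fun j hj => h j (by
        unfold reads
        rw [if_pos hx]
        exact Finset.mem_insert_of_mem hj))
      constructor
      · unfold eval
        rw [hi, if_pos hx, if_pos hx]
        exact h2.1
      · unfold reads
        rw [hi, if_pos hx, if_pos hx, h2.2]
    · have h2 := iha (fun j hj => h j (by
        unfold reads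
        rw [if_neg hx]
        exact Finset.mem_insert_of_mem hj))
      constructor
      · unfold eval
        rw [hi, if_neg hx, if_neg hx]
        exact h2.1
      · unfold reads
        rw [hi, if_neg hx, if_neg hx, h2.2]

end Tree

variable {I : Type} [DecidableEq I]

/-- `f` is computed by a decision tree of depth at most `s` -/
def HasDT (s : ℕ) (f : (I → Bool) → Bool) : Prop :=
  ∃ t : Tree I, t.depth ≤ s ∧ ∀ x, t.eval x = f x

lemma HasDT.mono {s s' : ℕ} {f : (I → Bool) → Bool} (h : HasDT s f) (hs : s ≤ s') :
    HasDT s' f := by
  obtain ⟨t, ht, he⟩ := h
  exact ⟨t, ht.trans hs, he⟩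

lemma hasDT_const (b : Bool) {f : (I → Bool) → Bool} (hf : ∀ x, f x = b) (s : ℕ) :
    HasDT s f := ⟨Tree.leaf b, Nat.zero_le _, fun x => (hf x).symm⟩

lemma HasDT.cert {s : ℕ} {f : (I → Bool) → Bool} (h : HasDT s f) (b : Bool) : Cert s b f := by
  obtain ⟨t, ht, he⟩ := h
  intro x hx
  refine ⟨t.reads x, (t.card_reads x).trans ht, ?_⟩
  intro y hy
  rw [← he y, (t.congr x y hy).1, he x, hx]

/-- overriding the values on a set -/
def ovr (A : Finset I) (π x : I → Bool) : I → Bool := fun i => if i ∈ A then π i else x i

lemma hasDT_query (A : Finset I) : ∀ (f : (I → Bool) → Bool) (s : ℕ),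
    (∀ π : I → Bool, HasDT s (fun x => f (ovr A π x))) → HasDT (A.card + s) f := by
  induction A using Finset.induction_on with
  | empty =>
    intro f s h
    have h1 := h (fun _ => false)
    have h2 : (fun x => f (ovr ∅ (fun _ => false) x)) = f := by
      funext x
      congr 1
    rw [h2] at h1
    simpa using h1
  | insert i A hi ih =>
    intro f s h
    have h1 : ∀ b : Bool, HasDT (A.card + s) (fun x => f (Function.update x i b)) := by
      intro b
      apply ih
      intro π
      have h2 := h (Function.update π i b)
      have h3 : (fun x => f (ovr (insert i A) (Function.update π i b) x)) =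
          fun x => f (Function.update (ovr A π x) i b) := by
        funext x
        congr 1
        funext j
        unfold ovr
        by_cases hj : j = i
        · subst hj
          simp
        · by_cases hjA : j ∈ A
          · simp [hj, hjA]
          · simp [hj, hjA]
      rw [h3] at h2
      exact h2
    obtain ⟨t0, ht0, he0⟩ := h1 false
    obtain ⟨t1, ht1, he1⟩ := h1 true
    refine ⟨Tree.node i t0 t1, ?_, ?_⟩
    · unfold Tree.depth
      rw [Finset.card_insert_of_notMem hi]
      have := max_le ht0 ht1
      omega
    · intro x
      unfold Tree.eval
      by_cases hx : x i = true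
      · rw [if_pos hx, he1]
        show f (Function.update x i true) = f x
        congr 1
        funext j
        by_cases hj : j = i
        · subst hj
          simp [hx]
        · simp [hj]
      · rw [if_neg hx, he0]
        show f (Function.update x i false) = f x
        congr 1
        funext j
        by_cases hj : j = i
        · subst hj
          simp at hx
          simp [hx]
        · simp [hj]

end Pool.Agent.TH163.AC3
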